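import Mathlib
import Pool.Agent.V7H45.CY.Main4
import Pool.Agent.W307.RT.Tors

/-!
# The average rank of the elliptic curves with torsion group `Z/4`, `Z/8`, `Z/12` is bounded

All elliptic curves over `ℚ` with torsion group `Z/4`, respectively `Z/8`, `Z/12`, ordered by
height: the number of these curves of height at most `H` tends to infinity with `H`, and the
averages of `2 ^ (rank / 8)` and of all powers of the rank over them are bounded by constants.

In these families the average of the size of the 2-Selmer group of the 2-isogenous curve with full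
2-torsion is not bounded: there is an explicit main part (the Tamagawa ratio) with a divergent
average. It is separated by a lower bound from the pigeonhole principle, the rest is a sum of
products of Jacobi symbols with a bounded average, and the moment of order `1 / 8` of the main part
is bounded.
-/

set_option autoImplicit false

namespace Pool.Agent.Results.MP_9e6228_nt.CyclicTorsionH45

open Finset Filter

/-- the curve `y² = x³ + A x + B` over `ℚ` -/
def E (A B : ℤ) : WeierstrassCurve ℚ := ⟨0, 0, 0, (A : ℚ), (B : ℚ)⟩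

/-- `E A B` is an elliptic curve with its minimal equation: `4 A³ + 27 B² ≠ 0` and there is no
prime `p` with `p⁴ ∣ A` and `p⁶ ∣ B` (every elliptic curve over `ℚ` is isomorphic to exactly one of
these), and its height `max (4 |A|³) (27 B²)` is at most `H` -/
def Good (H : ℕ) (c : ℤ × ℤ) : Prop :=
  4 * c.1 ^ 3 + 27 * c.2 ^ 2 ≠ 0 ∧ 4 * |c.1| ^ 3 ≤ H ∧ 27 * c.2 ^ 2 ≤ H ∧
    (∀ p : ℕ, p.Prime → ¬ ((p : ℤ) ^ 4 ∣ c.1 ∧ (p : ℤ) ^ 6 ∣ c.2))

/-- the group of rational points of `E A B`, `c = (A, B)`, has a subgroup isomorphic to `S` -/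
def HasSub (S : Type) [AddCommGroup S] (c : ℤ × ℤ) : Prop :=
  ∃ f : S →+ (E c.1 c.2).toAffine.Point, Function.Injective f

/-- the rank of `E A B`, `c = (A, B)` -/
noncomputable def rk (c : ℤ × ℤ) : ℕ := Module.finrank ℤ (E c.1 c.2).toAffine.Point

open Classical in
/-- The pairs `(A, B)` such that `E A B` is as in `Good` and its group of rational points has a
subgroup `Z/4` but no subgroup `Z/8`, `Z/12` or `Z/2 x Z/4`; by Mazur's theorem this is the
condition that the torsion group is `Z/4`. (The bounds `|A|, |B| ≤ H` follow from the bound of the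
height.) -/
noncomputable def FamFour (H : ℕ) : Finset (ℤ × ℤ) :=
  ((Icc (-(H : ℤ)) H) ×ˢ (Icc (-(H : ℤ)) H)).filter (fun c : ℤ × ℤ => Good H c ∧
    HasSub (ZMod 4) c ∧ ¬ HasSub (ZMod 8) c ∧ ¬ HasSub (ZMod 12) c ∧
    ¬ HasSub (ZMod 2 × ZMod 4) c)

open Classical in
/-- The pairs `(A, B)` such that `E A B` is as in `Good` and its group of rational points has a
subgroup `Z/8` but no subgroup `Z/2 x Z/8`; by Mazur's theorem this is the condition that the
torsion group is `Z/8`. -/
noncomputable def FamEight (H : ℕ) : Finset (ℤ × ℤ) :=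
  ((Icc (-(H : ℤ)) H) ×ˢ (Icc (-(H : ℤ)) H)).filter (fun c : ℤ × ℤ => Good H c ∧
    HasSub (ZMod 8) c ∧ ¬ HasSub (ZMod 2 × ZMod 8) c)

open Classical in
/-- The pairs `(A, B)` such that `E A B` is as in `Good` and its group of rational points has a
subgroup `Z/12`; by Mazur's theorem this is the condition that the torsion group is `Z/12`. -/
noncomputable def FamTwelve (H : ℕ) : Finset (ℤ × ℤ) :=
  ((Icc (-(H : ℤ)) H) ×ˢ (Icc (-(H : ℤ)) H)).filter (fun c : ℤ × ℤ => Good H c ∧
    HasSub (ZMod 12) c)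

open Pool.Agent.V7H45.CY Pool.Agent.W307.RT

lemma hasSub_iff (m : ℕ) (hm : 1 ≤ m) (c : ℤ × ℤ) : HasSub (ZMod m) c ↔ HasC m (Sh c.1 c.2) :=
  (Pool.Agent.V7H33.CY.t_TC m (Sh c.1 c.2) hm).symm

lemma hasSub_iff2 (m : ℕ) (c : ℤ × ℤ) : HasSub (ZMod 2 × ZMod m) c ↔ HasT m (Sh c.1 c.2) :=
  tors_iff.symm

lemma FamFour_eq (H : ℕ) : FamFour H = Q4 H := by
  classical
  unfold FamFour Q4 CvC
  rw [filter_filter]
  apply filter_congr
  intro c _
  rw [hasSub_iff2 4, hasSub_iff 4 (by norm_num), hasSub_iff 8 (by norm_num),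
    hasSub_iff 12 (by norm_num)]
  unfold Good
  tauto

lemma FamEight_eq (H : ℕ) : FamEight H = Q8 H := by
  classical
  unfold FamEight Q8 CvC
  rw [filter_filter]
  apply filter_congr
  intro c _
  rw [hasSub_iff2 8, hasSub_iff 8 (by norm_num)]
  unfold Good
  tauto

lemma FamTwelve_eq (H : ℕ) : FamTwelve H = CvC 12 H := by
  classical
  unfold FamTwelve CvC
  apply filter_congr
  intro c _
  rw [hasSub_iff 12 (by norm_num)]
  unfold Good
  tauto

/-- **Theorem.** For `T = Z/4`, `Z/8`, `Z/12`: the number of the elliptic curves over `ℚ` of height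
at most `H` with torsion group `T` tends to infinity with `H`, the average of `2 ^ (rank / 8)` over
them is bounded, and so are the averages of all the powers of the rank. -/
theorem result (Fam : ℕ → Finset (ℤ × ℤ))
    (hFam : Fam = FamFour ∨ Fam = FamEight ∨ Fam = FamTwelve) :
    Tendsto (fun H : ℕ => (Fam H).card) atTop atTop ∧
    (∃ C : ℝ, ∀ H : ℕ, ∑ c ∈ Fam H, (2 : ℝ) ^ ((rk c : ℝ) / 8) ≤ C * (Fam H).card) ∧
    ∀ k : ℕ, ∃ C : ℝ, ∀ H : ℕ, ∑ c ∈ Fam H, (rk c : ℝ) ^ k ≤ C * (Fam H).card := by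
  have key : ∀ Q : ℕ → Finset (ℤ × ℤ), Tendsto (fun H : ℕ => (Q H).card) atTop atTop →
      (∃ C : ℝ, ∀ H : ℕ, ∑ c ∈ Q H, RS c ≤ C * ((Q H).card : ℝ)) →
      Tendsto (fun H : ℕ => (Q H).card) atTop atTop ∧
      (∃ C : ℝ, ∀ H : ℕ, ∑ c ∈ Q H, (2 : ℝ) ^ ((rk c : ℝ) / 8) ≤ C * (Q H).card) ∧
      ∀ k : ℕ, ∃ C : ℝ, ∀ H : ℕ, ∑ c ∈ Q H, (rk c : ℝ) ^ k ≤ C * (Q H).card :=
    fun Q h1 h2 => ⟨h1, h2, moments rk h2⟩
  rcases hFam with rfl | rfl | rfl
  · rw [funext FamFour_eq]
    exact key _ (tendsto_3 low_Q4) main_4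
  · rw [funext FamEight_eq]
    exact key _ (tendsto_Q low_Q8) main_8
  · rw [funext FamTwelve_eq]
    exact key _ (tendsto_Q low_12) main_12

end Pool.Agent.Results.MP_9e6228_nt.CyclicTorsionH45
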