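import Pool.Agent.V7H45.BF.Fin

/-!
# Moments of `2 ^ rank` of curves with full 2-torsion twisted at prime arguments

Let `L_1, ..., L_n` be pairwise non-proportional integral linear polynomials in one variable. For
elliptic curves `E_i : y² = x (x - a_i) (x - b_i)` and products `D_i` of some of the `L_j`, the sum
over the integers `|t| ≤ X` with `|L_j(t)|` prime for all `j` in a set `P` of the product of the
numbers `2 ^ rank E_i^{D_i(t)}` is at most a constant times `X / (log X) ^ #P`.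
-/

namespace Pool.Agent.Results.MP_9e6228_nt.PrimeTwistMomentsH45

open Finset

/-- the quadratic twist by `d` of the curve `y² = x (x - a) (x - b)` over `ℚ`: the curve
`y² = x (x - a d) (x - b d)` -/
def twist (a b d : ℤ) : WeierstrassCurve ℚ :=
  ⟨0, -(((a * d : ℤ) : ℚ) + ((b * d : ℤ) : ℚ)), 0, ((a * d : ℤ) : ℚ) * ((b * d : ℤ) : ℚ), 0⟩

/-- the rank of the group of rational points of the twist -/
noncomputable def rk (a b d : ℤ) : ℕ := Module.finrank ℤ (twist a b d).toAffine.Point

open Classical in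
/-- the integers `t` with `|t| ≤ X` such that the absolute value of `α j * t + β j` is a prime
number for every `j` in `P` -/
noncomputable def Arg {n : ℕ} (α β : Fin n → ℤ) (P : Finset (Fin n)) (X : ℕ) : Finset ℤ :=
  (Icc (-(X : ℤ)) X).filter (fun t : ℤ => ∀ j ∈ P, (α j * t + β j).natAbs.Prime)

/-- a product of nonnegative numbers is at most the sum of the powers -/
lemma prod_le_sum_pow {r : ℕ} (hr : 0 < r) (x : Fin r → ℝ) (hx : ∀ i, 0 ≤ x i) :
    ∏ i, x i ≤ ∑ i, x i ^ r := by
  have : Nonempty (Fin r) := ⟨⟨0, hr⟩⟩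
  obtain ⟨i0, hi0⟩ := Finite.exists_max x
  calc ∏ i, x i ≤ ∏ _i : Fin r, x i0 := prod_le_prod (fun i _ => hx i) fun i _ => hi0 i
    _ = x i0 ^ r := by rw [prod_const, card_univ, Fintype.card_fin]
    _ ≤ ∑ i, x i ^ r := single_le_sum (f := fun i => x i ^ r)
        (fun i _ => pow_nonneg (hx i) r) (mem_univ i0)

/-- the comparison of the two normalisations -/
lemma norm_le {X : ℕ} (hX : 2 ≤ X) (m : ℕ) :
    (X : ℝ) / (1 + Real.log X) ^ m ≤ (X : ℝ) / (Real.log X) ^ m := by
  have hXr : (2 : ℝ) ≤ X := by exact_mod_cast hX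
  have hl : 0 < Real.log X := Real.log_pos (by linarith)
  apply div_le_div_of_nonneg_left (by positivity) (by positivity)
  exact pow_le_pow_left₀ hl.le (by linarith) m

/-- **Moments of `2 ^ rank` of quadratic twists at prime arguments.**
Let `L_j(t) = α j * t + β j`, `j < n`, be pairwise non-proportional integral linear polynomials with
`α j ≠ 0`, let `P` be a nonempty set of them, let `E i : y² = x (x - a i) (x - b i)`, `i < r`, be
elliptic curves over `ℚ` with full rational 2-torsion (repetitions are allowed) and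
`D i = ∏_{j ∈ Q i} L_j`. There is a constant `C` such that for all `X ≥ 2` the sum over the integers
`|t| ≤ X` with `|L_j(t)|` prime for all `j ∈ P` of the product over `i` of `2 ^ rank` of the
quadratic twist of `E i` by `D i (t)` is at most `C * X / (log X) ^ #P`. -/
theorem result (n : ℕ) (α β : Fin n → ℤ) (hα : ∀ j, α j ≠ 0)
    (hL : ∀ j l, j ≠ l → α j * β l ≠ α l * β j) (P : Finset (Fin n)) (_hP : P.Nonempty) (r : ℕ)
    (a b : Fin r → ℤ) (ha : ∀ i, a i ≠ 0) (hb : ∀ i, b i ≠ 0) (hab : ∀ i, a i ≠ b i)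
    (Q : Fin r → Finset (Fin n)) :
    ∃ C : ℝ, ∀ X : ℕ, 2 ≤ X → ∑ t ∈ Arg α β P X,
      ∏ i, (2 : ℝ) ^ rk (a i) (b i) (∏ j ∈ Q i, (α j * t + β j)) ≤
        C * ((X : ℝ) / (Real.log X) ^ P.card) := by
  classical
  rcases Nat.eq_zero_or_pos r with hr | hr
  · subst hr
    obtain ⟨C, hC0, hC⟩ := Pool.Agent.V7H45.BF.una 1 le_rfl 1 (-1) (by norm_num) (by norm_num)
      (by norm_num) α β hα hL P ∅
    refine ⟨C, fun X hX => ?_⟩
    have h1 := hC X (by omega)
    refine le_trans ?_ (h1.trans (mul_le_mul_of_nonneg_left (norm_le hX _) hC0))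
    have h2 : ∀ t ∈ Arg α β P X, (∏ i : Fin 0, (2 : ℝ) ^ rk (a i) (b i)
        (∏ j ∈ Q i, (α j * t + β j))) ≤ ((2 : ℝ) ^ Module.finrank ℤ
        (Pool.Agent.W262.RK.EAB (1 * ∏ i ∈ (∅ : Finset (Fin n)), (α i * t + β i))
        (-1 * ∏ i ∈ (∅ : Finset (Fin n)), (α i * t + β i))).toAffine.Point) ^ 1 := by
      intro t _
      rw [univ_eq_empty, prod_empty, pow_one]
      exact one_le_pow₀ (by norm_num)
    refine (sum_le_sum h2).trans (le_of_eq ?_)
    apply sum_congr _ (fun _ _ => rfl)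
    ext t
    unfold Arg
    simp only [mem_filter]
  choose C hC0 hC using fun i => Pool.Agent.V7H45.BF.una r hr (a i) (b i) (ha i) (hb i) (hab i)
    α β hα hL P (Q i)
  refine ⟨∑ i, C i, fun X hX => ?_⟩
  calc ∑ t ∈ Arg α β P X, ∏ i, (2 : ℝ) ^ rk (a i) (b i) (∏ j ∈ Q i, (α j * t + β j))
      ≤ ∑ t ∈ Arg α β P X,
          ∑ i, ((2 : ℝ) ^ rk (a i) (b i) (∏ j ∈ Q i, (α j * t + β j))) ^ r :=
        sum_le_sum fun t _ => prod_le_sum_pow hr _ fun i => by positivity
    _ = ∑ i, ∑ t ∈ Arg α β P X,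
          ((2 : ℝ) ^ rk (a i) (b i) (∏ j ∈ Q i, (α j * t + β j))) ^ r := sum_comm
    _ ≤ ∑ i, C i * ((X : ℝ) / (Real.log X) ^ P.card) := by
        refine sum_le_sum fun i _ => ?_
        refine le_trans (le_of_eq ?_) ((hC i X (by omega)).trans
          (mul_le_mul_of_nonneg_left (norm_le hX _) (hC0 i)))
        apply sum_congr _ (fun _ _ => rfl)
        ext t
        unfold Arg
        simp only [mem_filter]
    _ = (∑ i, C i) * ((X : ℝ) / (Real.log X) ^ P.card) := by rw [sum_mul]

end Pool.Agent.Results.MP_9e6228_nt.PrimeTwistMomentsH45
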