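import Pool.Agent.V7H35.TwistFew

/-!
# Ranks of elliptic curves with full 2-torsion in very thin families of quadratic twists

Let `E : y² = x (x - a) (x - b)` be an elliptic curve with full rational 2-torsion, and `D(t) = ∏ (γ_i t + δ_i)` a product of
pairwise non-proportional linear forms, for example `D(t) = t` or `t (t + 1) (t + 2)`. The curves `E^{D(t)}`, the quadratic
twists by `D(t)`, have full rational 2-torsion (for all but few `t` the torsion group is `Z/2 x Z/2`). The question is whether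
their ranks are bounded. For a single `t` only `rank E^{D(t)} ≤ C log t / log log t` is known.

Let `f_j`, `j = 0, 1, 2, …`, be positive functions on `(x₀, ∞)`, `x₀ ≥ 0`, with nondecreasing `f_j(x) / x`, and such that
`log f_j(x) ≥ j ^ c` for large `j`, with some `c > 0` that may depend on `x`; for instance `f_j(x) = v_j x`, `x ^ (v_j)` with
`v_j ≥ 1`, or the orbit of `x` under a map `g` with nondecreasing `g(x) / x > 1`. We prove that for almost all `α > x₀`, for ALL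
these `E` and `D`, all `K` and `B`, for all but finitely many `j`, EVERY natural number `t` with
`|t - f_j(α)| ≤ (log f_j(α)) ^ B` satisfies `rank E^{D(t)} ≤ (log log t) / K`. So the ranks are `o(log log t)` at all natural
numbers near the `α ^ j`, or near the `2 ^ j α`, for almost all `α`.

The theorem `TwistMomentsH45` of the page MP_788af2_nt (helper45) bounds all moments of `2 ^ rank E^{D(t)}`, and so the number
of the `t ≤ X` with rank larger than `(log log t) / K` is at most `C_A X / (log X) ^ A`. Near these sequences there are only a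
few members `t`. The metric part is proved in `Pool.Agent.V7H35.LogMetric`; the transfer theorems of the starting library need
exceptional sets with a power saving, which are not available here.
-/

set_option autoImplicit false

namespace Pool.Agent.Results.MP_9e6228_nt.ThinSequencesH35

open MeasureTheory Pool.Agent.V7H35.LogMetric
open Pool.Agent.Results.MP_788af2_nt.TwistMomentsH45 (twist rk)

/-- **Ranks near very thin sequences.** (1) Let `f` be a sequence of positive functions on `(x₀, ∞)` with nondecreasing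
`f_j(x) / x` (`Star`) and `log f_j(x) ≥ j ^ c` for large `j` (`Grow`). For almost all `α > x₀`: for all integers `a`, `b` with
`a b (a - b) ≠ 0`, all products `D(t) = ∏ (γ_i t + δ_i)` of pairwise non-proportional linear forms with `γ_i ≠ 0`, all `K ≥ 1` and
`B`, for all but finitely many `j`, EVERY natural number `t` with `|t - f_j(α)| ≤ (log f_j(α)) ^ B` satisfies
`K * rank E^{D(t)} ≤ log (log t)`, where `E^d` is the curve `y² = x (x - a d) (x - b d)`. (2) - (4) Examples: `v_j x` if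
`log v_j ≥ j ^ c` for large `j`; `x ^ (v_j)` for `v_j ≥ 1`, `v_j ≥ j ^ c` for large `j`; the iterates of a map `g` with `g(x) > x`
and `g(x) / x` nondecreasing. -/
theorem result :
    (∀ (x₀ : ℝ) (f : ℕ → ℝ → ℝ), Star x₀ f → Grow x₀ f → ∀ᵐ α : ℝ, x₀ < α →
      ∀ a b : ℤ, a ≠ 0 → b ≠ 0 → a ≠ b → ∀ (m : ℕ) (γ δ : Fin m → ℤ), (∀ i, γ i ≠ 0) →
        (∀ i l, i ≠ l → γ i * δ l ≠ γ l * δ i) → ∀ K : ℕ, 1 ≤ K → ∀ B : ℕ, ∃ j₀ : ℕ, ∀ j : ℕ, j₀ ≤ j → ∀ t : ℕ,
          |(t : ℝ) - f j α| ≤ (Real.log (f j α)) ^ B →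
            (K : ℝ) * rk a b (∏ i, (γ i * t + δ i)) ≤ Real.log (Real.log t)) ∧
    (∀ v : ℕ → ℝ, (∀ n, 0 < v n) → ∀ c : ℝ, 0 < c → (∃ n₀ : ℕ, ∀ n : ℕ, n₀ ≤ n → (n : ℝ) ^ c ≤ Real.log (v n)) →
      Star 0 (fun n x => v n * x) ∧ Grow 0 (fun n x => v n * x)) ∧
    (∀ v : ℕ → ℝ, (∀ n, 1 ≤ v n) → ∀ c : ℝ, 0 < c → (∃ n₀ : ℕ, ∀ n : ℕ, n₀ ≤ n → (n : ℝ) ^ c ≤ v n) →
      Star 1 (fun n x => x ^ (v n)) ∧ Grow 1 (fun n x => x ^ (v n))) ∧
    (∀ (x₀ : ℝ) (g : ℝ → ℝ), 0 ≤ x₀ → (∀ x y : ℝ, x₀ < x → x ≤ y → g x / x ≤ g y / y) → (∀ x : ℝ, x₀ < x → x < g x) →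
      Star x₀ (fun n x => g^[n] x) ∧ Grow x₀ (fun n x => g^[n] x)) := by
  refine ⟨fun x₀ f hf hg => ?_, ex_mul, ex_pow, ex_orbit⟩
  have hall : ∀ᵐ α : ℝ, ∀ (a b : ℤ) (m : ℕ) (γ δ : Fin m → ℤ) (K : ℕ), x₀ < α →
      (a ≠ 0 ∧ b ≠ 0 ∧ a ≠ b ∧ (∀ i, γ i ≠ 0) ∧ (∀ i l, i ≠ l → γ i * δ l ≠ γ l * δ i) ∧ 1 ≤ K) →
      ∀ B : ℕ, ∃ j₀ : ℕ, ∀ j : ℕ, j₀ ≤ j →
        ∀ t ∈ {t : ℕ | Real.log (Real.log t) < K * rk a b (∏ i, (γ i * t + δ i))},
          (Real.log (f j α)) ^ B < |(t : ℝ) - f j α| := by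
    rw [ae_all_iff]; intro a
    rw [ae_all_iff]; intro b
    rw [ae_all_iff]; intro m
    rw [ae_all_iff]; intro γ
    rw [ae_all_iff]; intro δ
    rw [ae_all_iff]; intro K
    by_cases hyp : a ≠ 0 ∧ b ≠ 0 ∧ a ≠ b ∧ (∀ i, γ i ≠ 0) ∧ (∀ i l, i ≠ l → γ i * δ l ≠ γ l * δ i) ∧ 1 ≤ K
    · obtain ⟨h1, h2, h3, h4, h5, h6⟩ := hyp
      filter_upwards [windows (Pool.Agent.V7H35.TwistFew.few_rank h1 h2 h3 h4 h5 h6) hf hg] with α hα hx _
      exact hα hx
    · exact Filter.Eventually.of_forall fun α _ h => absurd h hyp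
  filter_upwards [hall] with α hα hx a b h1 h2 h3 m γ δ h4 h5 K h6 B
  obtain ⟨j₀, hj₀⟩ := hα a b m γ δ K hx ⟨h1, h2, h3, h4, h5, h6⟩ B
  refine ⟨j₀, fun j hj t ht => ?_⟩
  by_contra hcon
  exact absurd ht (not_le.2 (hj₀ j hj t (not_le.1 hcon)))

end Pool.Agent.Results.MP_9e6228_nt.ThinSequencesH35
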