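import Mathlib
import Pool.Agent.V7H45.G8.Fin8
import Pool.Agent.W307.RT.Tors

/-!
# The average of `2 ^ rank` over the elliptic curves with torsion group `Z/2 x Z/8` is bounded

All elliptic curves over `ℚ` whose group of rational points has a subgroup isomorphic to
`Z/2 x Z/8` (by Mazur's theorem these are exactly those with torsion group `Z/2 x Z/8`), ordered by
height: the number of these curves of height at most `H` tends to infinity with `H`, and the
average of `2 ^ rank` over them is bounded by a constant. In particular the average rank is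
bounded, and the proportion of the curves of rank at least `r` is at most `C / 2 ^ r`, uniformly
in `H`.

The curves are `y² = x (x + (2 a b)⁴) (x + (a² - b²)⁴)` with coprime `a`, `b`; the differences of
the roots are products of powers of the four linear forms `a`, `b`, `a - b`, `a + b` and of the
three irreducible quadratic forms `a² - 2 a b - b²`, `a² + 2 a b - b²`, `a² + b²`.
-/

set_option autoImplicit false

namespace Pool.Agent.Results.MP_9e6228_nt.TorsionTwoEightH45

open Finset Filter

/-- the curve `y² = x³ + A x + B` over `ℚ` -/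
def E (A B : ℤ) : WeierstrassCurve ℚ := ⟨0, 0, 0, (A : ℚ), (B : ℚ)⟩

open Classical in
/-- The pairs `(A, B)` of integers such that `4 A³ + 27 B² ≠ 0`, there is no prime `p` with
`p⁴ ∣ A` and `p⁶ ∣ B`, the height `max (4 |A|³) (27 B²)` is at most `H`, and `Z/2 x Z/8` embeds in
the group of the rational points of `y² = x³ + A x + B`. (The bounds `|A|, |B| ≤ H` follow from the
bound of the height. Every elliptic curve over `ℚ` is isomorphic to `E A B` for exactly one pair
with the first two properties.) -/
noncomputable def Fam (H : ℕ) : Finset (ℤ × ℤ) :=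
  ((Icc (-(H : ℤ)) H) ×ˢ (Icc (-(H : ℤ)) H)).filter (fun c : ℤ × ℤ =>
    4 * c.1 ^ 3 + 27 * c.2 ^ 2 ≠ 0 ∧ 4 * |c.1| ^ 3 ≤ H ∧ 27 * c.2 ^ 2 ≤ H ∧
    (∀ p : ℕ, p.Prime → ¬ ((p : ℤ) ^ 4 ∣ c.1 ∧ (p : ℤ) ^ 6 ∣ c.2)) ∧
    ∃ f : ZMod 2 × ZMod 8 →+ (E c.1 c.2).toAffine.Point, Function.Injective f)

lemma Fam_eq (H : ℕ) : Fam H = Pool.Agent.W307.RT.Cv 8 H := by
  classical
  unfold Fam Pool.Agent.W307.RT.Cv
  apply filter_congr
  intro c _
  have h : Pool.Agent.W307.RT.HasT 8 (Pool.Agent.W307.RT.Sh c.1 c.2) ↔
      ∃ f : ZMod 2 × ZMod 8 →+ (E c.1 c.2).toAffine.Point, Function.Injective f :=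
    Pool.Agent.W307.RT.tors_iff
  rw [h]

/-- **Theorem.** The number of the elliptic curves over `ℚ` of height at most `H` with torsion
group `Z/2 x Z/8` tends to infinity with `H`, and the average of `2 ^ rank` over them is bounded. -/
theorem result : Tendsto (fun H : ℕ => (Fam H).card) atTop atTop ∧
    ∃ C : ℝ, ∀ H : ℕ,
    ∑ c ∈ Fam H, (2 : ℝ) ^ Module.finrank ℤ (E c.1 c.2).toAffine.Point ≤ C * (Fam H).card := by
  simp only [Fam_eq]
  exact ⟨Pool.Agent.W307.RT.tendsto_of_low Pool.Agent.V7H54.C8.low8, Pool.Agent.V7H45.G8.main8⟩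

end Pool.Agent.Results.MP_9e6228_nt.TorsionTwoEightH45
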